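import Mathlib

/-!
# WLR4: a point with no heavy line through it
-/

set_option autoImplicit false

namespace Pool.Agent.WLR4

open Finset

/-- In a non-collinear set of `n` points some point has at most `(n - 1) / 2` of the other points
on every line through it. -/
theorem choose_point {n : ℕ} (β u : Fin n → ℤ) (hu : Function.Injective u)
    (hnc : ∃ i j k, (β j - β i) * (u k - u i) ≠ (β k - β i) * (u j - u i)) :
    ∃ o, ∀ i, i ≠ o → 2 * #{j | j ≠ o ∧ (β j - β o) * (u i - u o) = (β i - β o) * (u j - u o)} ≤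
      n - 1 := by
  classical
  obtain ⟨o0, hnc0⟩ := id hnc
  clear hnc0
  by_cases hA : ∃ i0 j0, i0 ≠ j0 ∧
      n + 1 < 2 * #{k | (β k - β i0) * (u j0 - u i0) = (β j0 - β i0) * (u k - u i0)}
  · obtain ⟨i0, j0, hij, hbig⟩ := hA
    set ℓ : Finset (Fin n) :=
      {k | (β k - β i0) * (u j0 - u i0) = (β j0 - β i0) * (u k - u i0)} with hℓ
    have hmem : ∀ k, k ∈ ℓ ↔ (β k - β i0) * (u j0 - u i0) = (β j0 - β i0) * (u k - u i0) := by
      intro k; rw [hℓ]; simp
    have hU : u j0 - u i0 ≠ 0 := sub_ne_zero.2 fun h => hij (hu h).symm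
    have hex : ∃ o, o ∉ ℓ := by
      by_contra hall
      push Not at hall
      obtain ⟨i, j, k, hne⟩ := hnc
      apply hne
      have e : ∀ a, (β a - β i0) * (u j0 - u i0) = (β j0 - β i0) * (u a - u i0) :=
        fun a => (hmem a).1 (hall a)
      refine mul_left_cancel₀ hU ?_
      linear_combination (u k - u i) * (e j - e i) - (u j - u i) * (e k - e i)
    obtain ⟨o, ho⟩ := hex
    refine ⟨o, fun i hi => ?_⟩
    set T : Finset (Fin n) :=
      {j | j ≠ o ∧ (β j - β o) * (u i - u o) = (β i - β o) * (u j - u o)} with hT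
    have hTm : ∀ j, j ∈ T ↔ j ≠ o ∧ (β j - β o) * (u i - u o) = (β i - β o) * (u j - u o) := by
      intro j; rw [hT]; simp
    have hU' : u i - u o ≠ 0 := sub_ne_zero.2 fun h => hi (hu h)
    have hone : #(T ∩ ℓ) ≤ 1 := by
      rw [card_le_one]
      intro j1 h1 j2 h2
      by_contra hne
      obtain ⟨h1a, h1b⟩ := mem_inter.1 h1
      obtain ⟨h2a, h2b⟩ := mem_inter.1 h2
      have a1 := ((hTm j1).1 h1a).2
      have a2 := ((hTm j2).1 h2a).2
      have b1 := (hmem j1).1 h1b
      have b2 := (hmem j2).1 h2b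
      have hu12 : u j1 - u j2 ≠ 0 := sub_ne_zero.2 fun h => hne (hu h)
      have c1 : (β i - β o) * (u j0 - u i0) = (β j0 - β i0) * (u i - u o) := by
        refine mul_left_cancel₀ hu12 ?_
        linear_combination (u i - u o) * (b1 - b2) - (u j0 - u i0) * (a1 - a2)
      apply ho
      rw [hmem]
      refine mul_left_cancel₀ hU' ?_
      linear_combination (u i - u o) * b1 - (u j0 - u i0) * a1 - (u j1 - u o) * c1
    have hsub : T ⊆ (T ∩ ℓ) ∪ (univ \ (insert o ℓ)) := by
      intro j hj
      by_cases hjl : j ∈ ℓ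
      · exact mem_union_left _ (mem_inter.2 ⟨hj, hjl⟩)
      · refine mem_union_right _ (mem_sdiff.2 ⟨mem_univ _, ?_⟩)
        rw [mem_insert, not_or]
        exact ⟨((hTm j).1 hj).1, hjl⟩
    have hc := (card_le_card hsub).trans (card_union_le _ _)
    rw [card_sdiff_of_subset (subset_univ _), card_insert_of_notMem ho, card_univ,
      Fintype.card_fin] at hc
    have hn : #(insert o ℓ) ≤ n := by
      have := card_le_univ (insert o ℓ)
      rwa [Fintype.card_fin] at this
    rw [card_insert_of_notMem ho] at hn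
    omega
  · push Not at hA
    refine ⟨o0, fun i hi => ?_⟩
    have h1 := hA o0 i (Ne.symm hi)
    set M : Finset (Fin n) :=
      {k | (β k - β o0) * (u i - u o0) = (β i - β o0) * (u k - u o0)} with hM
    have e : ({j | j ≠ o0 ∧ (β j - β o0) * (u i - u o0) = (β i - β o0) * (u j - u o0)} :
        Finset (Fin n)) = M.erase o0 := by
      ext j
      simp [hM]
    have ho : o0 ∈ M := by simp [hM]
    rw [e, card_erase_of_mem ho]
    have : 1 ≤ #M := card_pos.2 ⟨o0, ho⟩
    omega

end Pool.Agent.WLR4
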