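import Pool.Agent.WLR4.FF

/-!
# WLR4: two-dimensional families of times
-/

set_option autoImplicit false

namespace Pool.Agent.WLR4

open Finset

/-- If at most half of the integer vectors `(c i, w i)` are parallel to any of them, then for all
large primes `p` some combination of `w` and `c` has all residues modulo `p` at distance at least
`p / (n - 1)` from `0`. -/
theorem core {n : ℕ} (hn : 3 ≤ n) (w c : Fin n → ℤ) (o : Fin n) (hw : ∀ i, i ≠ o → w i ≠ 0)
    (hline : ∀ i, i ≠ o → 2 * #{j | j ≠ o ∧ c j * w i = c i * w j} ≤ n - 1) (B : ℕ) :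
    ∃ p : ℕ, B ≤ p ∧ 0 < p ∧ ∃ X Y : ℤ, |X| ≤ p ∧ 2 * |Y| ≤ p ∧ ∀ i, i ≠ o → ∀ m : ℤ,
      ((p / (n - 1) : ℕ) : ℤ) ≤ |X * w i + Y * c i - m * p| := by
  classical
  obtain ⟨p, hpB, hp⟩ := Nat.exists_infinite_primes (B + n + ∑ i, (w i).natAbs +
    ∑ i, ∑ j, (c j * w i - c i * w j).natAbs + 1)
  have : Fact p.Prime := ⟨hp⟩
  have hp0 : 0 < p := hp.pos
  have hb1 : ∀ i, (w i).natAbs < p := by
    intro i
    have := Finset.single_le_sum (f := fun i => (w i).natAbs) (fun _ _ => Nat.zero_le _)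
      (mem_univ i)
    omega
  have hb2 : ∀ i j, (c j * w i - c i * w j).natAbs < p := by
    intro i j
    have h1 := Finset.single_le_sum (f := fun j => (c j * w i - c i * w j).natAbs)
      (fun _ _ => Nat.zero_le _) (mem_univ j)
    have h2 := Finset.single_le_sum (f := fun i => ∑ j, (c j * w i - c i * w j).natAbs)
      (fun _ _ => Nat.zero_le _) (mem_univ i)
    omega
  have hzero : ∀ x : ℤ, x.natAbs < p → ((x : ℤ) : ZMod p) = 0 → x = 0 := by
    intro x hx h0
    rw [ZMod.intCast_zmod_eq_zero_iff_dvd] at h0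
    exact Int.eq_zero_of_abs_lt_dvd h0 (by rw [Int.abs_eq_natAbs]; exact_mod_cast hx)
  have hwp : ∀ i, i ≠ o → ((w i : ℤ) : ZMod p) ≠ 0 := fun i hi h => hw i hi (hzero _ (hb1 i) h)
  set g : ℕ := p / (n - 1) with hg
  have hgn : g * (n - 1) ≤ p := Nat.div_mul_le_self _ _
  set a : Fin n → ZMod p := fun i => (c i : ZMod p) * (w i : ZMod p)⁻¹ with ha
  set E : Finset (Fin n × ℤ) := (univ.erase o) ×ˢ Finset.Ioo (-(g : ℤ)) g with hE
  set S : Finset (ZMod p × ZMod p) :=
    E.image (fun q => (a q.1, (q.2 : ZMod p) * (w q.1 : ZMod p)⁻¹)) with hS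
  have hgpos : 1 ≤ g := by
    rw [hg, Nat.one_le_div_iff (by omega)]
    omega
  have hIoo : #(Finset.Ioo (-(g : ℤ)) g) = 2 * g - 1 := by
    rw [Int.card_Ioo]; omega
  have hcardS : #S ≤ (n - 1) * (2 * g - 1) := by
    refine card_image_le.trans ?_
    rw [hE, card_product, card_erase_of_mem (mem_univ o), card_univ, Fintype.card_fin, hIoo]
  have hcardI : #(S.image Prod.fst) ≤ n - 1 := by
    have hsub : S.image Prod.fst ⊆ (univ.erase o).image a := by
      intro z hz
      obtain ⟨q, hq, rfl⟩ := mem_image.1 hz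
      obtain ⟨r, hr, rfl⟩ := mem_image.1 hq
      exact mem_image.2 ⟨r.1, (mem_product.1 hr).1, rfl⟩
    refine (card_le_card hsub).trans (card_image_le.trans ?_)
    rw [card_erase_of_mem (mem_univ o), card_univ, Fintype.card_fin]
  have hn1 : 2 ≤ n - 1 := by omega
  have hid : (n - 1) * (2 * g - 1) + (n - 1) = 2 * (g * (n - 1)) := by
    obtain ⟨g', hg'⟩ : ∃ g', g = g' + 1 := ⟨g - 1, by omega⟩
    have : 2 * (g' + 1) - 1 = 2 * g' + 1 := by omega
    rw [hg', this]; ring
  have h2 : #S + #(S.image Prod.fst) ≤ 2 * p := by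
    calc #S + #(S.image Prod.fst) ≤ (n - 1) * (2 * g - 1) + (n - 1) := by omega
      _ = 2 * (g * (n - 1)) := hid
      _ ≤ 2 * p := by omega
  have h3 : #S + 2 ≤ 2 * p := by
    have : (n - 1) * (2 * g - 1) + (n - 1) ≤ 2 * p := by rw [hid]; omega
    omega
  have h1 : ∀ z, #(S.filter (fun s => s.1 = z)) < p := by
    intro z
    set A : Finset (Fin n) := (univ.erase o).filter (fun i => a i = z) with hA
    have hsub : S.filter (fun s => s.1 = z) ⊆ (A ×ˢ Finset.Ioo (-(g : ℤ)) g).image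
        (fun q => (a q.1, (q.2 : ZMod p) * (w q.1 : ZMod p)⁻¹)) := by
      intro s hs
      obtain ⟨hs1, hs2⟩ := mem_filter.1 hs
      obtain ⟨r, hr, rfl⟩ := mem_image.1 hs1
      refine mem_image.2 ⟨r, mem_product.2 ⟨mem_filter.2 ⟨(mem_product.1 hr).1, hs2⟩,
        (mem_product.1 hr).2⟩, rfl⟩
    have hc1 : #(S.filter (fun s => s.1 = z)) ≤ #A * (2 * g - 1) := by
      refine (card_le_card hsub).trans (card_image_le.trans ?_)
      rw [card_product, hIoo]
    have hA2 : 2 * #A ≤ n - 1 := by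
      rcases A.eq_empty_or_nonempty with h0 | ⟨i0, hi0⟩
      · rw [h0, card_empty]; omega
      · obtain ⟨hi1, hi2⟩ := mem_filter.1 hi0
        have hio := (mem_erase.1 hi1).1
        refine le_trans ?_ (hline i0 hio)
        refine Nat.mul_le_mul_left 2 (card_le_card ?_)
        intro j hj
        obtain ⟨hj1, hj2⟩ := mem_filter.1 hj
        have hjo := (mem_erase.1 hj1).1
        refine mem_filter.2 ⟨mem_univ _, hjo, ?_⟩
        have e : a j = a i0 := by rw [hj2, hi2]
        have e2 : ((c j * w i0 - c i0 * w j : ℤ) : ZMod p) = 0 := by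
          push_cast
          have ej : (c j : ZMod p) = a j * w j := by
            rw [ha]; simp only
            rw [mul_assoc, inv_mul_cancel₀ (hwp j hjo), mul_one]
          have ei : (c i0 : ZMod p) = a i0 * w i0 := by
            rw [ha]; simp only
            rw [mul_assoc, inv_mul_cancel₀ (hwp i0 hio), mul_one]
          rw [ej, ei, e]; ring
        have := hzero _ (hb2 i0 j) e2
        linarith
    have hc2 : 2 * #(S.filter (fun s => s.1 = z)) ≤ (n - 1) * (2 * g - 1) := by
      calc 2 * #(S.filter (fun s => s.1 = z)) ≤ 2 * (#A * (2 * g - 1)) := by omega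
        _ = 2 * #A * (2 * g - 1) := by ring
        _ ≤ (n - 1) * (2 * g - 1) := Nat.mul_le_mul_right _ hA2
    omega
  obtain ⟨x, y, hxy⟩ := main_cover S h1 h2 h3
  refine ⟨p, by omega, hp0, (x.val : ℤ), y.valMinAbs, ?_, ?_, ?_⟩
  · rw [abs_of_nonneg (by positivity)]
    exact_mod_cast (ZMod.val_lt x).le
  · have := ZMod.natAbs_valMinAbs_le y
    rw [Int.abs_eq_natAbs]
    omega
  · intro i hi m
    by_contra hlt
    have hlt : |((x.val : ℕ) : ℤ) * w i + y.valMinAbs * c i - m * p| < g := not_le.1 hlt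
    set z : ℤ := ((x.val : ℕ) : ℤ) * w i + y.valMinAbs * c i - m * p with hz
    have hzI : z ∈ Finset.Ioo (-(g : ℤ)) g := by
      rw [Finset.mem_Ioo]; exact abs_lt.1 hlt
    have hmem : (a i, (z : ZMod p) * (w i : ZMod p)⁻¹) ∈ S :=
      mem_image.2 ⟨(i, z), mem_product.2 ⟨mem_erase.2 ⟨hi, mem_univ _⟩, hzI⟩, rfl⟩
    have hne := hxy _ hmem
    apply hne
    have hzc : (z : ZMod p) = x * w i + y * c i := by
      rw [hz]
      push_cast
      rw [ZMod.natCast_zmod_val, CharP.cast_eq_zero, mul_zero, sub_zero]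
    simp only
    rw [hzc, ha]
    simp only
    have h := hwp i hi
    field_simp

end Pool.Agent.WLR4
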