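import Mathlib

/-!
# WLR4: covers of the affine plane over a prime field by lines

If the lines `x + a y = e`, `(a, e) ∈ S`, cover the plane over `ZMod p`, no slope `a` occurs `p`
times and `#S ≤ 2 p - 2`, then `#S + #slopes > 2 p` (lacunary polynomials).
-/

set_option autoImplicit false

open Polynomial

namespace Pool.Agent.WLR4

variable {p : ℕ}

/-- The product of the linear forms `X + a Y - e`; the variable `Y` is the inner one. -/
noncomputable def Q2 (S : Finset (ZMod p × ZMod p)) : (ZMod p)[X][X] :=
  ∏ s ∈ S, (X + C (C s.1 * X - C s.2))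

/-- The product of the `X + a`. -/
noncomputable def f1 (S : Finset (ZMod p × ZMod p)) : (ZMod p)[X] :=
  ∏ s ∈ S, (X + C s.1)

theorem monic_f1 (S : Finset (ZMod p × ZMod p)) : (f1 S).Monic :=
  monic_prod_of_monic _ _ fun _ _ => monic_X_add_C _

theorem natDegree_f1 [Fact p.Prime] (S : Finset (ZMod p × ZMod p)) :
    (f1 S).natDegree = S.card := by
  unfold f1
  rw [natDegree_prod_of_monic _ _ fun s _ => monic_X_add_C s.1]
  simp

theorem coeff_Q2 [Fact p.Prime] (S : Finset (ZMod p × ZMod p)) :
    (∀ i j, S.card < i + j → ((Q2 S).coeff i).coeff j = 0) ∧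
    (∀ i j, i + j = S.card → ((Q2 S).coeff i).coeff j = (f1 S).coeff i) := by
  classical
  induction S using Finset.induction_on with
  | empty =>
    constructor
    · intro i j h
      rw [Finset.card_empty] at h
      simp only [Q2, Finset.prod_empty, coeff_one]
      by_cases hi : i = 0
      · have hj : j ≠ 0 := by omega
        simp [hi, coeff_one, hj]
      · simp [hi]
    · intro i j h
      rw [Finset.card_empty] at h
      have hi : i = 0 := by omega
      have hj : j = 0 := by omega
      simp [Q2, f1, hi, hj]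
  | insert s S hs ih =>
    obtain ⟨ih1, ih2⟩ := ih
    rw [Finset.card_insert_of_notMem hs]
    have eQ : Q2 (insert s S) = X * Q2 S + C (C s.1 * X - C s.2) * Q2 S := by
      rw [Q2, Finset.prod_insert hs, add_mul]; rfl
    have ef : f1 (insert s S) = X * f1 S + C s.1 * f1 S := by
      rw [f1, Finset.prod_insert hs, add_mul]; rfl
    have e1 : ∀ i j, ((Q2 (insert s S)).coeff i).coeff j =
        ((X * Q2 S).coeff i).coeff j + (s.1 * (X * (Q2 S).coeff i).coeff j -
          s.2 * ((Q2 S).coeff i).coeff j) := by
      intro i j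
      rw [eQ, coeff_add, coeff_add, coeff_C_mul, sub_mul, mul_assoc, coeff_sub, coeff_C_mul,
        coeff_C_mul]
    constructor
    · intro i j h
      rw [e1, ih1 i j (by omega), mul_zero, sub_zero]
      have t1 : ((X * Q2 S).coeff i).coeff j = 0 := by
        rcases i with _ | i
        · rw [mul_coeff_zero, coeff_X_zero, zero_mul, coeff_zero]
        · rw [coeff_X_mul]; exact ih1 i j (by omega)
      have t2 : (X * (Q2 S).coeff i).coeff j = 0 := by
        rcases j with _ | j
        · rw [mul_coeff_zero, coeff_X_zero, zero_mul]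
        · rw [coeff_X_mul]; exact ih1 i j (by omega)
      rw [t1, t2, mul_zero, add_zero]
    · intro i j h
      rw [e1, ih1 i j (by omega), mul_zero, sub_zero, ef, coeff_add, coeff_C_mul]
      have t1 : ((X * Q2 S).coeff i).coeff j = (X * f1 S).coeff i := by
        rcases i with _ | i
        · rw [mul_coeff_zero, coeff_X_zero, zero_mul, coeff_zero, mul_coeff_zero, coeff_X_zero,
            zero_mul]
        · rw [coeff_X_mul, coeff_X_mul]; exact ih2 i j (by omega)
      have t2 : (X * (Q2 S).coeff i).coeff j = (f1 S).coeff i := by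
        rcases j with _ | j
        · rw [mul_coeff_zero, coeff_X_zero, zero_mul]
          exact (coeff_eq_zero_of_natDegree_lt (by rw [natDegree_f1]; omega)).symm
        · rw [coeff_X_mul]; exact ih2 i j (by omega)
      rw [t1, t2]

/-- The specialization of the inner variable. -/
theorem map_Q2 (S : Finset (ZMod p × ZMod p)) (y : ZMod p) :
    (Q2 S).map (evalRingHom y) = ∏ s ∈ S, (X + C (s.1 * y - s.2)) := by
  unfold Q2
  rw [Polynomial.map_prod]
  refine Finset.prod_congr rfl fun s _ => ?_
  simp

/-- The top part of a covering product is lacunary. -/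
theorem lacunary [hp : Fact p.Prime] (S : Finset (ZMod p × ZMod p))
    (hcov : ∀ x y : ZMod p, ∃ s ∈ S, x + s.1 * y = s.2) :
    p ≤ S.card ∧ ∀ i, S.card - p < i → i < p → (f1 S).coeff i = 0 := by
  classical
  have hp2 : 2 ≤ p := hp.out.two_le
  -- divisibility of the specializations
  have hdiv : ∀ y : ZMod p, ∃ G : (ZMod p)[X], (Q2 S).map (evalRingHom y) = (X ^ p - X) * G := by
    intro y
    have hmonic : (X ^ p - X : (ZMod p)[X]).Monic := by
      have := monic_X_pow_sub (R := ZMod p) (p := X) (n := p) (by
        rw [degree_X]; exact_mod_cast hp.out.one_lt)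
      exact this
    have hdeg : (X ^ p - X : (ZMod p)[X]).natDegree = p :=
      FiniteField.X_pow_card_sub_X_natDegree_eq (ZMod p) hp.out.one_lt
    refine ⟨(Q2 S).map (evalRingHom y) /ₘ (X ^ p - X), ?_⟩
    have hmod : (Q2 S).map (evalRingHom y) %ₘ (X ^ p - X) = 0 := by
      refine eq_zero_of_natDegree_lt_card_of_eval_eq_zero' _ (Finset.univ : Finset (ZMod p)) ?_ ?_
      · intro x _
        have e := modByMonic_add_div ((Q2 S).map (evalRingHom y)) (X ^ p - X : (ZMod p)[X])
        have e2 := congrArg (eval x) e
        rw [eval_add, eval_mul, eval_sub, eval_pow, eval_X, ZMod.pow_card, sub_self, zero_mul,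
          add_zero] at e2
        rw [e2, map_Q2, eval_prod]
        obtain ⟨s, hs, hsx⟩ := hcov x y
        refine Finset.prod_eq_zero hs ?_
        rw [eval_add, eval_X, eval_C, ← hsx]
        ring
      · have h1 := natDegree_modByMonic_lt ((Q2 S).map (evalRingHom y)) hmonic (by
          intro h
          rw [h, natDegree_one] at hdeg
          omega)
        rw [Finset.card_univ, ZMod.card]
        omega
    have e := modByMonic_add_div ((Q2 S).map (evalRingHom y)) (X ^ p - X : (ZMod p)[X])
    rw [hmod, zero_add] at e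
    exact e.symm
  choose G hG using hdiv
  have hmonicP : ∀ y : ZMod p, ((Q2 S).map (evalRingHom y)).Monic := by
    intro y
    rw [map_Q2]
    exact monic_prod_of_monic _ _ fun _ _ => monic_X_add_C _
  have hdegP : ∀ y : ZMod p, ((Q2 S).map (evalRingHom y)).natDegree = S.card := by
    intro y
    rw [map_Q2, natDegree_prod_of_monic _ _ fun s _ => monic_X_add_C _,
      Finset.sum_congr rfl fun s _ => natDegree_X_add_C _, Finset.sum_const, smul_eq_mul, mul_one]
  have hmonic : (X ^ p - X : (ZMod p)[X]).Monic := by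
    have := monic_X_pow_sub (R := ZMod p) (p := X) (n := p) (by
      rw [degree_X]; exact_mod_cast hp.out.one_lt)
    exact this
  have hdeg : (X ^ p - X : (ZMod p)[X]).natDegree = p :=
    FiniteField.X_pow_card_sub_X_natDegree_eq (ZMod p) hp.out.one_lt
  have hGm : ∀ y, (G y).Monic := by
    intro y
    have := hmonicP y
    rw [hG y] at this
    exact hmonic.of_mul_monic_left this
  have hGd : ∀ y, p + (G y).natDegree = S.card := by
    intro y
    rw [← hdegP y, hG y, hmonic.natDegree_mul (hGm y), hdeg]
  have hle : p ≤ S.card := by have := hGd 0; omega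
  refine ⟨hle, ?_⟩
  intro i hi1 hi2
  have hcoef : ∀ y, ((Q2 S).coeff i).eval y = - (X * G y).coeff i := by
    intro y
    have e : ((Q2 S).map (evalRingHom y)).coeff i = ((Q2 S).coeff i).eval y := by
      rw [coeff_map]; rfl
    rw [← e, hG y, sub_mul, coeff_sub, coeff_X_pow_mul', if_neg (by omega), zero_sub]
  obtain ⟨c1, c2⟩ := coeff_Q2 S
  have hdegc : ((Q2 S).coeff i).natDegree ≤ S.card - i := by
    rw [natDegree_le_iff_coeff_eq_zero]
    intro j hj
    exact c1 i j (by omega)
  have hval : ∀ y, ((Q2 S).coeff i).eval y = if i = S.card - p + 1 then (-1) else 0 := by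
    intro y
    rw [hcoef y]
    obtain ⟨i', rfl⟩ : ∃ i', i = i' + 1 := ⟨i - 1, by omega⟩
    rw [coeff_X_mul]
    have hd := hGd y
    by_cases h : i' + 1 = S.card - p + 1
    · rw [if_pos h]
      have : i' = (G y).natDegree := by omega
      rw [this]
      have := (hGm y)
      rw [Monic, leadingCoeff] at this
      rw [this]
    · rw [if_neg h, coeff_eq_zero_of_natDegree_lt (by omega), neg_zero]
  -- the coefficient is a constant polynomial
  have hconst : (Q2 S).coeff i = C (if i = S.card - p + 1 then (-1) else 0) := by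
    rw [← sub_eq_zero]
    refine eq_zero_of_natDegree_lt_card_of_eval_eq_zero' _ (Finset.univ : Finset (ZMod p)) ?_ ?_
    · intro y _
      rw [eval_sub, hval y, eval_C, sub_self]
    · rw [Finset.card_univ, ZMod.card]
      rw [natDegree_sub_C]
      omega
  have h5 := c2 i (S.card - i) (by omega)
  rw [← h5, hconst, coeff_C, if_neg (by omega)]

theorem coprime_X_add_C [Fact p.Prime] {a b : ZMod p} (h : a ≠ b) :
    IsCoprime (X + C a : (ZMod p)[X]) (X + C b) := by
  refine ⟨C (a - b)⁻¹, -C (a - b)⁻¹, ?_⟩
  have h1 : (a - b)⁻¹ * (a - b) = 1 := inv_mul_cancel₀ (sub_ne_zero.2 h)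
  calc C (a - b)⁻¹ * (X + C a) + -C (a - b)⁻¹ * (X + C b)
      = C ((a - b)⁻¹ * (a - b)) := by rw [C_mul, C_sub]; ring
    _ = 1 := by rw [h1, C_1]

/-- Comparison of the lowest terms. -/
theorem mult_eq [hp : Fact p.Prime] (a : ZMod p) (m : ℕ) (f g F1 : (ZMod p)[X])
    (hf : f = (X + C a) ^ m * F1) (hF1 : F1.eval (-a) ≠ 0) (hg0 : g ≠ 0)
    (hW : derivative g * f - g * derivative f = 0) (hm : m < p) (hgd : g.natDegree < p) :
    (X + C a) ^ m ∣ g := by
  obtain ⟨G1, hg, hG1⟩ := exists_eq_pow_rootMultiplicity_mul_and_not_dvd g hg0 (-a)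
  set j := g.rootMultiplicity (-a) with hj
  have hT : (X - C (-a) : (ZMod p)[X]) = X + C a := by rw [C_neg, sub_neg_eq_add]
  rw [hT] at hg hG1
  have hG1' : G1.eval (-a) ≠ 0 := by
    intro h0
    apply hG1
    rw [← hT, dvd_iff_isRoot]
    exact h0
  have hT0 : (X + C a : (ZMod p)[X]) ≠ 0 := (monic_X_add_C a).ne_zero
  have hd : ∀ (r : ℕ) (R : (ZMod p)[X]), (X + C a) * derivative ((X + C a) ^ r * R) =
      (X + C a) ^ r * (C (r : ZMod p) * R + (X + C a) * derivative R) := by
    intro r R
    rcases r with _ | r
    · simp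
    · rw [derivative_mul, derivative_pow]
      simp only [derivative_add, derivative_X, derivative_C, add_zero, mul_one,
        Nat.add_sub_cancel]
      ring
  have hB : (X + C a) ^ (j + m) * (C ((j : ZMod p) - m) * G1 * F1 +
      (X + C a) * (derivative G1 * F1 - G1 * derivative F1)) = 0 := by
    have e1 : (X + C a) * (derivative g * f - g * derivative f) =
        ((X + C a) * derivative g) * f - g * ((X + C a) * derivative f) := by ring
    rw [hW, mul_zero] at e1
    rw [hf, hg, hd, hd] at e1
    rw [e1, pow_add, C_sub]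
    ring
  have hB2 := (mul_eq_zero.1 hB).resolve_left (pow_ne_zero _ hT0)
  have hB3 := congrArg (eval (-a)) hB2
  rw [eval_add, eval_mul, eval_mul, eval_C, eval_mul, eval_add, eval_X, eval_C, neg_add_cancel,
    zero_mul, add_zero, eval_zero] at hB3
  have hB4 : (j : ZMod p) - m = 0 := by
    rcases mul_eq_zero.1 hB3 with h | h
    · rcases mul_eq_zero.1 h with h | h
      · exact h
      · exact absurd h hG1'
    · exact absurd h hF1
  have hB5 : (j : ZMod p) = m := sub_eq_zero.1 hB4
  rw [ZMod.natCast_eq_natCast_iff'] at hB5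
  have hjk : j < p := by
    refine lt_of_le_of_lt ?_ hgd
    have e := natDegree_le_of_dvd (Dvd.intro _ hg.symm) hg0
    rwa [natDegree_pow, natDegree_X_add_C, mul_one] at e
  rw [Nat.mod_eq_of_lt hjk, Nat.mod_eq_of_lt hm] at hB5
  rw [← hB5, hg]
  exact dvd_mul_right _ _

/-- Lines `x + a y = e` do not cover the plane over `ZMod p` if no slope occurs `p` times and
there are few lines and slopes. -/
theorem main_cover [hp : Fact p.Prime] (S : Finset (ZMod p × ZMod p))
    (h1 : ∀ a, (S.filter (fun s => s.1 = a)).card < p)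
    (h2 : S.card + (S.image Prod.fst).card ≤ 2 * p) (h3 : S.card + 2 ≤ 2 * p) :
    ∃ x y : ZMod p, ∀ s ∈ S, x + s.1 * y ≠ s.2 := by
  classical
  by_contra hcon
  push Not at hcon
  obtain ⟨hpL, hlac⟩ := lacunary S hcon
  have hp0 : 0 < p := hp.out.pos
  set L := S.card with hL
  obtain ⟨k, hk⟩ : ∃ k, L = p + k := ⟨L - p, by omega⟩
  set f := f1 S with hf
  have hfd : f.natDegree = L := natDegree_f1 S
  have hfm : f.Monic := monic_f1 S
  have hXm : (X ^ p : (ZMod p)[X]).Monic := monic_X_pow p
  set g := f /ₘ X ^ p with hg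
  set h := f %ₘ X ^ p with hh
  have hfgh : f = h + X ^ p * g := (modByMonic_add_div f (X ^ p)).symm
  have hgd : g.natDegree = k := by
    rw [hg, natDegree_divByMonic f hXm, natDegree_X_pow, hfd]
    omega
  have hhd0 : h.degree < (X ^ p : (ZMod p)[X]).degree := degree_modByMonic_lt f hXm
  have hhd : h.natDegree ≤ k := by
    rw [natDegree_le_iff_coeff_eq_zero]
    intro i hi
    by_cases hip : i < p
    · have e1 := hlac i (by omega) hip
      rw [hfgh, coeff_add, coeff_X_pow_mul', if_neg (by omega), add_zero] at e1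
      exact e1
    · refine coeff_eq_zero_of_degree_lt (lt_of_lt_of_le hhd0 ?_)
      rw [degree_X_pow]
      exact_mod_cast not_lt.1 hip
  have hg0 : g ≠ 0 := by
    intro h0
    rw [h0, mul_zero, add_zero] at hfgh
    rw [hfgh] at hfd
    omega
  have hder : derivative f = derivative h + X ^ p * derivative g := by
    conv_lhs => rw [hfgh]
    rw [derivative_add, derivative_mul, derivative_X_pow]
    simp
  set W := derivative g * f - g * derivative f with hW
  have hW2 : W = derivative g * h - g * derivative h := by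
    rw [hW, hder]
    conv_lhs => rw [hfgh]
    ring
  -- factorization
  set D := S.image Prod.fst with hD
  set mu : ZMod p → ℕ := fun a => (S.filter (fun s => s.1 = a)).card with hmu
  have hfac : f = ∏ a ∈ D, (X + C a) ^ mu a := by
    rw [hf, f1, hD]
    exact Finset.prod_comp (fun a : ZMod p => (X + C a : (ZMod p)[X])) Prod.fst
  have hsum : ∑ a ∈ D, mu a = L := by
    rw [hL, Finset.card_eq_sum_card_image Prod.fst S]
  have hmupos : ∀ a ∈ D, 1 ≤ mu a := by
    intro a ha
    obtain ⟨s, hs, hsa⟩ := Finset.mem_image.1 ha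
    exact Finset.card_pos.2 ⟨s, Finset.mem_filter.2 ⟨hs, hsa⟩⟩
  have hdvdf : ∀ a ∈ D, (X + C a) ^ mu a ∣ f := by
    intro a ha
    rw [hfac]
    exact Finset.dvd_prod_of_mem (fun a => (X + C a : (ZMod p)[X]) ^ mu a) ha
  by_cases hW0 : W = 0
  · -- then `f` divides `g`
    have hdvd : ∀ a ∈ D, (X + C a) ^ mu a ∣ g := by
      intro a ha
      refine mult_eq a (mu a) f g (∏ b ∈ D.erase a, (X + C b) ^ mu b) ?_ ?_ hg0 hW0 (h1 a)
        (by omega)
      · rw [hfac, Finset.mul_prod_erase D (fun a => (X + C a : (ZMod p)[X]) ^ mu a) ha]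
      · rw [eval_prod]
        refine Finset.prod_ne_zero_iff.2 fun b hb => ?_
        rw [eval_pow, eval_add, eval_X, eval_C]
        refine pow_ne_zero _ ?_
        intro h0
        exact (Finset.ne_of_mem_erase hb) (neg_add_eq_zero.1 h0).symm
    have hfg : f ∣ g := by
      rw [hfac]
      refine Finset.prod_dvd_of_coprime ?_ hdvd
      intro a _ b _ hab
      exact (coprime_X_add_C hab).pow
    have := natDegree_le_of_dvd hfg hg0
    omega
  · have hk1 : 1 ≤ k := by
      by_contra hk0
      have hk0 : k = 0 := by omega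
      apply hW0
      rw [hW2, derivative_of_natDegree_zero (by omega), derivative_of_natDegree_zero (by omega)]
      ring
    have hWd : W.natDegree ≤ 2 * k - 1 := by
      rw [hW2]
      refine (natDegree_sub_le _ _).trans (max_le ?_ ?_)
      · refine natDegree_mul_le.trans ?_
        have := natDegree_derivative_le g
        omega
      · refine natDegree_mul_le.trans ?_
        have := natDegree_derivative_le h
        omega
    have hdvdW : ∏ a ∈ D, (X + C a) ^ (mu a - 1) ∣ W := by
      refine Finset.prod_dvd_of_coprime ?_ ?_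
      · intro a _ b _ hab
        exact (coprime_X_add_C hab).pow
      · intro a ha
        rw [hW]
        refine dvd_sub ?_ ?_
        · exact ((pow_dvd_pow _ (Nat.sub_le _ _)).trans (hdvdf a ha)).mul_left _
        · exact (pow_sub_one_dvd_derivative_of_pow_dvd (hdvdf a ha)).mul_left _
    have hdeg := natDegree_le_of_dvd hdvdW hW0
    rw [natDegree_prod_of_monic _ _ fun a _ => (monic_X_add_C a).pow _] at hdeg
    have e1 : ∑ a ∈ D, ((X + C a : (ZMod p)[X]) ^ (mu a - 1)).natDegree + D.card = L := by
      rw [Finset.card_eq_sum_ones, ← Finset.sum_add_distrib, ← hsum]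
      refine Finset.sum_congr rfl fun a ha => ?_
      rw [natDegree_pow, natDegree_X_add_C, mul_one]
      have := hmupos a ha
      omega
    omega

end Pool.Agent.WLR4
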