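import Mathlib

/-!
# WLR4: pigeonhole for integer speeds
-/

set_option autoImplicit false

namespace Pool.Agent.WLR4

open Finset

/-- A near return time `s / (K D)`. -/
theorem pigeon {n K D : ℕ} (hK : 1 ≤ K) (hD : 1 ≤ D) (u : Fin n → ℤ) (b : Fin n)
    (hb : u b = 0) (hbig : K ^ (n - 1) < K * D) :
    ∃ (s : ℤ) (β : Fin n → ℤ), 0 < s ∧ s < K * D ∧ β b = 0 ∧
      ∀ i, |s * u i - K * D * β i| < D := by
  classical
  have hN : (0 : ℤ) < (K : ℤ) * D := by positivity
  have hDz : (0 : ℤ) < D := by exact_mod_cast hD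
  have hcell : ∀ (j : ℕ) (i : Fin n), (((j : ℤ) * u i) % (K * D) / D).toNat < K := by
    intro j i
    have h1 := Int.emod_lt_of_pos ((j : ℤ) * u i) hN
    have h0 := Int.emod_nonneg ((j : ℤ) * u i) hN.ne'
    have h2 : ((j : ℤ) * u i) % (K * D) / D < K := Int.ediv_lt_of_lt_mul hDz h1
    have h3 : 0 ≤ ((j : ℤ) * u i) % (K * D) / D := Int.ediv_nonneg h0 hDz.le
    omega
  let φ : Fin (K * D) → ({i : Fin n // i ≠ b} → Fin K) := fun j i => ⟨_, hcell j i⟩
  have hcard : Fintype.card ({i : Fin n // i ≠ b} → Fin K) < Fintype.card (Fin (K * D)) := by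
    rw [Fintype.card_fun, Fintype.card_fin, Fintype.card_fin, Fintype.card_subtype_compl,
      Fintype.card_fin, Fintype.card_subtype_eq]
    exact hbig
  obtain ⟨x, y, hxy, hφ⟩ := Fintype.exists_ne_map_eq_of_card_lt φ hcard
  have key : ∀ x y : Fin (K * D), x < y → φ x = φ y → ∃ (s : ℤ) (β : Fin n → ℤ), 0 < s ∧
      s < K * D ∧ β b = 0 ∧ ∀ i, |s * u i - K * D * β i| < D := by
    intro x y hlt hφ
    have hlt' : (x : ℕ) < y := hlt
    have hy := y.2
    refine ⟨(y : ℤ) - x, fun i => ((y : ℤ) * u i) / (K * D) - ((x : ℤ) * u i) / (K * D),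
      by omega, ?_, ?_, ?_⟩
    · have : ((y : ℕ) : ℤ) < K * D := by exact_mod_cast hy
      omega
    · simp [hb]
    · intro i
      have e1 := Int.emod_add_mul_ediv ((y : ℤ) * u i) (K * D)
      have e2 := Int.emod_add_mul_ediv ((x : ℤ) * u i) (K * D)
      have e3 : ((y : ℤ) - x) * u i - K * D * (((y : ℤ) * u i) / (K * D) -
          ((x : ℤ) * u i) / (K * D)) =
          ((y : ℤ) * u i) % (K * D) - ((x : ℤ) * u i) % (K * D) := by
        linear_combination e2 - e1
      rw [e3]
      by_cases hi : i = b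
      · subst hi
        rw [hb]
        simpa using hDz
      · have h4 := congrFun hφ ⟨i, hi⟩
        have h5 : (((x : ℕ) : ℤ) * u i % (K * D) / D).toNat =
            (((y : ℕ) : ℤ) * u i % (K * D) / D).toNat := congrArg Fin.val h4
        set r := ((x : ℕ) : ℤ) * u i % (K * D) with hr
        set r' := ((y : ℕ) : ℤ) * u i % (K * D) with hr'
        have p1 : 0 ≤ r / D := Int.ediv_nonneg (Int.emod_nonneg _ hN.ne') hDz.le
        have p2 : 0 ≤ r' / D := Int.ediv_nonneg (Int.emod_nonneg _ hN.ne') hDz.le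
        have h6 : r / D = r' / D := by omega
        have q1 := Int.emod_add_mul_ediv r D
        have q2 := Int.emod_add_mul_ediv r' D
        have q3 := Int.emod_nonneg r hDz.ne'
        have q4 := Int.emod_nonneg r' hDz.ne'
        have q5 := Int.emod_lt_of_pos r hDz
        have q6 := Int.emod_lt_of_pos r' hDz
        rw [h6] at q1
        rw [abs_lt]
        constructor <;> linarith
  rcases lt_or_gt_of_ne hxy with h | h
  · exact key x y h hφ
  · exact key y x h hφ.symm

/-- The near return is not trivial: the points `(β i, u i)` are not collinear. -/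
theorem noncoll {n K D : ℕ} (hK : 1 ≤ K) (hD : 1 ≤ D) (u β : Fin n → ℤ) (b i1 : Fin n)
    (hb : u b = 0) (hβ : β b = 0) (hi1 : u i1 = D) (hgcd : univ.gcd u = 1) (s : ℤ) (hs0 : 0 < s)
    (hs1 : s < K * D) (hcl : ∀ i, |s * u i - K * D * β i| < D) :
    ∃ i j k, (β j - β i) * (u k - u i) ≠ (β k - β i) * (u j - u i) := by
  by_contra hcon
  push Not at hcon
  have hDz : (0 : ℤ) < D := by exact_mod_cast hD
  have h1 : ∀ j, β j * D = β i1 * u j := by
    intro j
    have := hcon b j i1
    rwa [hb, hβ, sub_zero, sub_zero, sub_zero, sub_zero, hi1] at this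
  have h2 : (D : ℤ) ∣ univ.gcd (fun j => β i1 * u j) := by
    refine Finset.dvd_gcd fun j _ => ?_
    rw [← h1 j]
    exact Dvd.intro_left _ rfl
  rw [Finset.gcd_mul_left, hgcd, mul_one] at h2
  have h3 : (D : ℤ) ∣ β i1 := (dvd_normalize_iff).1 h2
  obtain ⟨ρ, hρ⟩ := h3
  have h4 := hcl i1
  rw [hi1, hρ] at h4
  have h5 : s * D - K * D * (D * ρ) = (s - K * D * ρ) * D := by ring
  rw [h5, abs_mul, abs_of_pos hDz] at h4
  have h6 : |s - K * D * ρ| < 1 := by
    by_contra h
    have h' : 1 ≤ |s - K * D * ρ| := not_lt.1 h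
    nlinarith
  have h7 : s = K * D * ρ := by
    have := Int.abs_lt_one_iff.1 h6
    linarith
  have hN : (0 : ℤ) < (K : ℤ) * D := by positivity
  rw [h7] at hs0 hs1
  have h8 : 0 < ρ := by
    by_contra h
    have h' : ρ ≤ 0 := not_lt.1 h
    nlinarith
  nlinarith

end Pool.Agent.WLR4
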