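import Pool.Agent.WLR4.Core
import Pool.Agent.WLR4.Cho
import Pool.Agent.WLR4.Pig

/-!
# WLR4: integer speeds
-/

set_option autoImplicit false

namespace Pool.Agent.WLR4

open Finset

/-- Integer speeds with greatest common divisor `1` and a large entry. -/
theorem int_thm {n K : ℕ} (hn : 3 ≤ n) (hK : 1 ≤ K) (d : ℝ) (hd : d < 1 / ((n : ℝ) - 1) - 1 / K)
    (u : Fin n → ℤ) (hu : Function.Injective u) (b : Fin n) (hb : u b = 0)
    (hgcd : univ.gcd u = 1) (i1 : Fin n) (hi1 : (K : ℤ) ^ (n - 2) < u i1) :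
    ∃ (t : ℝ) (o : Fin n), |t| ≤ 2 ∧ ∀ i, i ≠ o → ∀ m : ℤ, d ≤ |t * (u i - u o) - m| := by
  classical
  obtain ⟨D, hD⟩ : ∃ D : ℕ, u i1 = D := by
    refine ⟨(u i1).toNat, ?_⟩
    have : 0 ≤ (K : ℤ) ^ (n - 2) := by positivity
    omega
  have hD0 : 1 ≤ D := by
    have : 0 ≤ (K : ℤ) ^ (n - 2) := by positivity
    omega
  have hbig : K ^ (n - 1) < K * D := by
    have h1 : K ^ (n - 2) < D := by
      have : ((K ^ (n - 2) : ℕ) : ℤ) < D := by rw [← hD]; push_cast; exact hi1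
      exact_mod_cast this
    have h2 : K ^ (n - 1) = K * K ^ (n - 2) := by
      rw [← pow_succ']; congr 1; omega
    rw [h2]
    exact Nat.mul_lt_mul_of_pos_left h1 hK
  obtain ⟨s, β, hs0, hs1, hβb, hcl⟩ := pigeon hK hD0 u b hb hbig
  obtain ⟨o, ho⟩ := choose_point β u hu
    (noncoll hK hD0 u β b i1 hb hβb hD hgcd s hs0 hs1 hcl)
  have hw : ∀ i, i ≠ o → u i - u o ≠ 0 := fun i hi h => hi (hu (sub_eq_zero.1 h))
  set δ0 : ℝ := 1 / ((n : ℝ) - 1) - 1 / K - d with hδ0
  have hδpos : 0 < δ0 := by rw [hδ0]; linarith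
  obtain ⟨B, hB⟩ := exists_nat_gt (1 / δ0)
  obtain ⟨p, hpB, hp0, X, Y, hX, hY, hmain⟩ :=
    core hn (fun i => u i - u o) (fun i => β i - β o) o hw ho B
  have hpR : (0 : ℝ) < p := by exact_mod_cast hp0
  have hKR : (0 : ℝ) < K := by exact_mod_cast hK
  have hDR : (0 : ℝ) < D := by exact_mod_cast hD0
  have hs0R : (0 : ℝ) < s := by exact_mod_cast hs0
  have hs1R : (s : ℝ) < K * D := by exact_mod_cast hs1
  have hXR : |(X : ℝ)| ≤ p := by exact_mod_cast hX
  have hYR : 2 * |(Y : ℝ)| ≤ p := by exact_mod_cast hY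
  have hn1 : (0 : ℝ) < (n : ℝ) - 1 := by
    have : (3 : ℝ) ≤ n := by exact_mod_cast hn
    linarith
  refine ⟨(X + Y * (s / (K * D))) / p, o, ?_, ?_⟩
  · rw [abs_div, abs_of_pos hpR, div_le_iff₀ hpR]
    have h1 : |(s : ℝ) / (K * D)| ≤ 1 := by
      rw [abs_of_pos (by positivity), div_le_one (by positivity)]
      exact hs1R.le
    calc |(X : ℝ) + Y * (s / (K * D))| ≤ |(X : ℝ)| + |(Y : ℝ) * (s / (K * D))| := abs_add_le _ _
      _ = |(X : ℝ)| + |(Y : ℝ)| * |(s : ℝ) / (K * D)| := by rw [abs_mul]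
      _ ≤ |(X : ℝ)| + |(Y : ℝ)| * 1 := by gcongr
      _ ≤ 2 * p := by linarith
  · intro i hi m
    have h1 := hmain i hi m
    set w : ℤ := u i - u o with hwdef
    set c : ℤ := β i - β o with hcdef
    set g : ℕ := p / (n - 1) with hg
    have h2 : |s * w - K * D * c| < 2 * D := by
      have a1 := abs_lt.1 (hcl i)
      have a2 := abs_lt.1 (hcl o)
      rw [abs_lt, hwdef, hcdef]
      constructor <;> nlinarith
    have h1R : (g : ℝ) ≤ |(X : ℝ) * w + Y * c - m * p| := by exact_mod_cast h1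
    have h2R : |(s : ℝ) * w - K * D * c| ≤ 2 * D := by
      have : ((|s * w - K * D * c| : ℤ) : ℝ) ≤ ((2 * D : ℤ) : ℝ) := by exact_mod_cast h2.le
      push_cast at this
      exact this
    have hwR : ((u i : ℝ) - u o) = w := by rw [hwdef]; push_cast; ring
    rw [hwR]
    have e1 : (X + Y * (s / (K * D))) / p * (w : ℝ) - m =
        (X * w + Y * c - m * p) / p + Y * (s * w - K * D * c) / (K * D * p) := by
      field_simp
      ring
    have e2 : |(Y : ℝ) * (s * w - K * D * c) / (K * D * p)| ≤ 1 / K := by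
      rw [abs_div, abs_mul, abs_of_pos (show (0 : ℝ) < K * D * p by positivity),
        div_le_div_iff₀ (by positivity) hKR]
      calc |(Y : ℝ)| * |(s : ℝ) * w - K * D * c| * K ≤ |(Y : ℝ)| * (2 * D) * K := by gcongr
        _ = (2 * |(Y : ℝ)|) * (D * K) := by ring
        _ ≤ p * (D * K) := by gcongr
        _ = 1 * (K * D * p) := by ring
    have e3 : (g : ℝ) / p ≤ |((X : ℝ) * w + Y * c - m * p) / p| := by
      rw [abs_div, abs_of_pos hpR]
      gcongr
    have e4 : 1 / ((n : ℝ) - 1) - 1 / p ≤ (g : ℝ) / p := by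
      have h5 : p < (g + 1) * (n - 1) := by
        have := Nat.div_add_mod p (n - 1)
        have h6 := Nat.mod_lt p (show n - 1 > 0 by omega)
        rw [← hg] at this
        nlinarith
      have h5R : (p : ℝ) < ((g : ℝ) + 1) * ((n : ℝ) - 1) := by
        have : ((p : ℕ) : ℝ) < (((g + 1) * (n - 1) : ℕ) : ℝ) := by exact_mod_cast h5
        rw [Nat.cast_mul, Nat.cast_sub (by omega)] at this
        push_cast at this
        exact this
      rw [sub_le_iff_le_add, ← add_div, div_le_div_iff₀ hn1 hpR]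
      linarith
    have e5 : 1 / (p : ℝ) ≤ δ0 := by
      have hpB' : (B : ℝ) ≤ p := by exact_mod_cast hpB
      rw [div_le_iff₀ hpR]
      rw [div_lt_iff₀ hδpos] at hB
      nlinarith
    have e6 := abs_sub_abs_le_abs_sub
      (((X : ℝ) * w + Y * c - m * p) / p) (-(Y * (s * w - K * D * c) / (K * D * p)))
    rw [abs_neg, sub_neg_eq_add] at e6
    rw [e1]
    rw [hδ0] at e5
    linarith

end Pool.Agent.WLR4
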