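import Pool.Agent.WLR4.Int

/-!
# WLR4: real speeds
-/

set_option autoImplicit false

namespace Pool.Agent.WLR4

open Finset

/-- Simultaneous approximation. -/
theorem dirichlet {n : ℕ} (x : Fin n → ℝ) (η : ℝ) (hη : 0 < η) :
    ∃ (T : ℕ) (c : Fin n → ℤ), 1 ≤ T ∧ ∀ i, |T * x i - c i| < η := by
  obtain ⟨K, hK⟩ := exists_nat_gt (1 / η)
  have hKR : (0 : ℝ) < K := lt_trans (by positivity) hK
  have hcell : ∀ (j : ℕ) (i : Fin n), ⌊K * Int.fract ((j : ℝ) * x i)⌋.toNat < K := by
    intro j i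
    have h0 : 0 ≤ K * Int.fract ((j : ℝ) * x i) := mul_nonneg hKR.le (Int.fract_nonneg _)
    have h1 : K * Int.fract ((j : ℝ) * x i) < K := by
      have := Int.fract_lt_one ((j : ℝ) * x i)
      nlinarith
    have h2 : ⌊K * Int.fract ((j : ℝ) * x i)⌋ < (K : ℤ) := by
      rw [Int.floor_lt]
      exact_mod_cast h1
    have h3 : 0 ≤ ⌊K * Int.fract ((j : ℝ) * x i)⌋ := Int.floor_nonneg.2 h0
    omega
  let φ : ℕ → (Fin n → Fin K) := fun j i => ⟨_, hcell j i⟩
  obtain ⟨a, b, hab, hφ⟩ := Finite.exists_ne_map_eq_of_infinite φ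
  have key : ∀ a b : ℕ, a < b → φ a = φ b → ∃ (T : ℕ) (c : Fin n → ℤ), 1 ≤ T ∧
      ∀ i, |T * x i - c i| < η := by
    intro a b hlt hφ
    refine ⟨b - a, fun i => ⌊(b : ℝ) * x i⌋ - ⌊(a : ℝ) * x i⌋, by omega, fun i => ?_⟩
    have h4 := congrArg Fin.val (congrFun hφ i)
    have h5 : ⌊K * Int.fract ((a : ℝ) * x i)⌋.toNat = ⌊K * Int.fract ((b : ℝ) * x i)⌋.toNat := h4
    have p1 : 0 ≤ ⌊K * Int.fract ((a : ℝ) * x i)⌋ :=
      Int.floor_nonneg.2 (mul_nonneg hKR.le (Int.fract_nonneg _))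
    have p2 : 0 ≤ ⌊K * Int.fract ((b : ℝ) * x i)⌋ :=
      Int.floor_nonneg.2 (mul_nonneg hKR.le (Int.fract_nonneg _))
    have h6 : ⌊K * Int.fract ((a : ℝ) * x i)⌋ = ⌊K * Int.fract ((b : ℝ) * x i)⌋ := by omega
    have h7 := Int.abs_sub_lt_one_of_floor_eq_floor h6
    rw [← mul_sub, abs_mul, abs_of_pos hKR] at h7
    have e : ((b - a : ℕ) : ℝ) * x i - ((⌊(b : ℝ) * x i⌋ - ⌊(a : ℝ) * x i⌋ : ℤ) : ℝ) =
        -(Int.fract ((a : ℝ) * x i) - Int.fract ((b : ℝ) * x i)) := by
      rw [Nat.cast_sub hlt.le, Int.fract, Int.fract]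
      push_cast
      ring
    rw [e, abs_neg]
    rw [div_lt_iff₀ hη] at hK
    by_contra h
    have h' := not_lt.1 h
    nlinarith
  rcases lt_or_gt_of_ne hab with h | h
  · exact key a b h hφ
  · exact key b a h hφ.symm

/-- Either some runner is lonely, or the speeds are an affine image of small integers. -/
theorem main {n K : ℕ} (hK : 1 ≤ K) (d : ℝ) (hd : d < 1 / ((n : ℝ) - 1) - 1 / K)
    (v : Fin n → ℝ) (hv : Function.Injective v) :
    (∃ (t : ℝ) (j : Fin n), ∀ i, i ≠ j →
      d ≤ |t * (v i - v j) - round (t * (v i - v j))|) ∨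
    ∃ (a b : ℝ) (u : Fin n → ℕ), (∀ i, u i ≤ K ^ (n - 2)) ∧ ∀ i, v i = a * u i + b := by
  classical
  rcases Nat.lt_or_ge n 3 with hn | hn
  · -- at most two runners
    right
    have h1 : 1 ≤ K ^ (n - 2) := Nat.one_le_pow _ _ hK
    interval_cases n
    · exact ⟨0, 0, fun _ => 0, fun i => i.elim0, fun i => i.elim0⟩
    · refine ⟨0, v 0, fun _ => 0, fun i => Nat.zero_le _, fun i => ?_⟩
      rw [Subsingleton.elim i 0]; simp
    · refine ⟨v 1 - v 0, v 0, fun i => (i : ℕ), fun i => ?_, fun i => ?_⟩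
      · have h2 := i.2
        show (i : ℕ) ≤ _
        omega
      · fin_cases i <;> simp
  by_cases hsmall : ∃ (a b : ℝ) (u : Fin n → ℕ), (∀ i, u i ≤ K ^ (n - 2)) ∧
      ∀ i, v i = a * u i + b
  · exact Or.inr hsmall
  left
  -- base point
  have hne : (univ : Finset (Fin n)).Nonempty := ⟨⟨0, by omega⟩, mem_univ _⟩
  obtain ⟨b, -, hbmin⟩ := exists_min_image univ v hne
  set x : Fin n → ℝ := fun i => v i - v b with hx
  have hx0 : ∀ i, 0 ≤ x i := fun i => sub_nonneg.2 (hbmin i (mem_univ _))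
  -- distance from the small vectors
  set Z : Set (Fin n → ℝ) := ⋃ u ∈ ((Fintype.piFinset fun _ : Fin n =>
    Finset.range (K ^ (n - 2) + 1)) : Finset (Fin n → ℕ)),
      ((Submodule.span ℝ {fun i => (u i : ℝ)} : Submodule ℝ (Fin n → ℝ)) : Set (Fin n → ℝ)) with hZ
  have hZc : IsClosed Z := by
    rw [hZ]
    exact (Finset.finite_toSet _).isClosed_biUnion fun u _ =>
      Submodule.closed_of_finiteDimensional _
  have hxZ : x ∉ Z := by
    intro h
    rw [hZ] at h
    simp only [Set.mem_iUnion] at h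
    obtain ⟨u, hu, hm⟩ := h
    rw [SetLike.mem_coe, Submodule.mem_span_singleton] at hm
    obtain ⟨a, ha⟩ := hm
    apply hsmall
    refine ⟨a, v b, u, fun i => ?_, fun i => ?_⟩
    · have := Fintype.mem_piFinset.1 hu i
      rw [Finset.mem_range] at this
      omega
    · have := congrFun ha i
      simp only [Pi.smul_apply, smul_eq_mul, hx] at this
      linarith
  obtain ⟨ρ, hρ, hball⟩ := Metric.isOpen_iff.1 hZc.isOpen_compl x hxZ
  -- the minimal gap
  obtain ⟨γ, hγ, hgap⟩ : ∃ γ : ℝ, 0 < γ ∧ ∀ i j, i ≠ j → γ ≤ |x i - x j| := by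
    have hne2 : ((univ : Finset (Fin n × Fin n)).filter (fun q => q.1 ≠ q.2)).Nonempty :=
      ⟨(⟨0, by omega⟩, ⟨1, by omega⟩), by simp⟩
    obtain ⟨q, hq, hmin⟩ := exists_min_image _ (fun q : Fin n × Fin n => |x q.1 - x q.2|) hne2
    refine ⟨|x q.1 - x q.2|, ?_, ?_⟩
    · rw [abs_pos, hx]
      intro h
      apply (mem_filter.1 hq).2
      apply hv
      simp only at h
      linarith
    · intro i j hij
      exact hmin (i, j) (mem_filter.2 ⟨mem_univ _, hij⟩)
  obtain ⟨d', hd1, hd2⟩ := exists_between hd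
  set η : ℝ := min (min ρ (γ / 2)) (min ((d' - d) / 4) 1) with hη
  have hηpos : 0 < η := by
    rw [hη]
    refine lt_min (lt_min hρ (by positivity)) (lt_min ?_ one_pos)
    linarith [hd1]
  have hη1 : η ≤ ρ := (min_le_left _ _).trans (min_le_left _ _)
  have hη2 : η ≤ γ / 2 := (min_le_left _ _).trans (min_le_right _ _)
  have hη3 : η ≤ (d' - d) / 4 := (min_le_right _ _).trans (min_le_left _ _)
  have hη4 : η ≤ 1 := (min_le_right _ _).trans (min_le_right _ _)
  obtain ⟨T, c, hT, hc⟩ := dirichlet x η hηpos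
  have hTR : (1 : ℝ) ≤ T := by exact_mod_cast hT
  have hcb : c b = 0 := by
    have h := hc b
    have hxb : x b = 0 := sub_self _
    rw [hxb, mul_zero, zero_sub, abs_neg] at h
    have h2 : |(c b : ℝ)| < 1 := lt_of_lt_of_le h hη4
    have h3 : |c b| < 1 := by exact_mod_cast h2
    exact Int.abs_lt_one_iff.1 h3
  have hcinj : Function.Injective c := by
    intro i j hij
    by_contra hne
    have h1 := hgap i j hne
    have a1 := abs_lt.1 (hc i)
    have a2 := abs_lt.1 (hc j)
    rw [← hij] at a2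
    have h2 : |(T : ℝ) * (x i - x j)| < γ := by
      rw [abs_lt]
      constructor <;> nlinarith
    rw [abs_mul, abs_of_pos (by linarith)] at h2
    nlinarith [abs_nonneg (x i - x j)]
  have hcpos : ∀ i, 0 ≤ c i := by
    intro i
    by_contra h
    have h1 : c i ≤ -1 := by omega
    have h2 : (c i : ℝ) ≤ -1 := by exact_mod_cast h1
    have a1 := abs_lt.1 (hc i)
    have := mul_nonneg (show (0 : ℝ) ≤ T by linarith) (hx0 i)
    linarith [a1.2]
  -- an index with `c i ≠ 0`
  obtain ⟨i2, hi2⟩ : ∃ i, c i ≠ 0 := by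
    by_contra h
    push Not at h
    have : (⟨0, by omega⟩ : Fin n) = ⟨1, by omega⟩ := hcinj (by rw [h, h])
    simp at this
  set G : ℤ := univ.gcd c with hG
  have hG0 : G ≠ 0 := by
    intro h
    exact hi2 (Finset.gcd_eq_zero_iff.1 h i2 (mem_univ _))
  have hGnn : 0 ≤ G := Int.nonneg_of_normalize_eq_self Finset.normalize_gcd
  have hGpos : 0 < G := lt_of_le_of_ne hGnn (Ne.symm hG0)
  have hG1 : (1 : ℝ) ≤ G := by exact_mod_cast hGpos
  have hdvd : ∀ i, G ∣ c i := fun i => Finset.gcd_dvd (mem_univ i)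
  set w : Fin n → ℤ := fun i => c i / G with hw
  have hcw : ∀ i, c i = G * w i := fun i => (Int.mul_ediv_cancel' (hdvd i)).symm
  have hcwR : ∀ i, (c i : ℝ) = G * w i := fun i => by exact_mod_cast hcw i
  have hwgcd : univ.gcd w = 1 := Finset.gcd_div_eq_one (mem_univ i2) hi2
  have hwinj : Function.Injective w := by
    intro i j hij
    apply hcinj
    rw [hcw i, hcw j, hij]
  have hwb : w b = 0 := by rw [hw]; simp [hcb]
  have hwpos : ∀ i, 0 ≤ w i := fun i => Int.ediv_nonneg (hcpos i) hGnn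
  by_cases hlarge : ∃ i1, (K : ℤ) ^ (n - 2) < w i1
  · obtain ⟨i1, hi1⟩ := hlarge
    obtain ⟨t, o, ht, hto⟩ := int_thm hn hK d' hd2 w hwinj b hwb hwgcd i1 hi1
    refine ⟨t * T / G, o, fun i hi => ?_⟩
    set m : ℤ := round (t * T / G * (v i - v o)) with hm
    have h1 := hto i hi m
    have hG0R : (G : ℝ) ≠ 0 := by positivity
    have e1 : t * T / G * (v i - v o) - m =
        (t * (w i - w o) - m) - (-(t * ((T * x i - c i) - (T * x o - c o)) / G)) := by
      rw [hcwR i, hcwR o]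
      simp only [hx]
      field_simp
      ring
    have e2 : |t * ((T * x i - c i) - (T * x o - c o)) / G| ≤ 4 * η := by
      rw [abs_div, abs_of_pos (show (0 : ℝ) < G by positivity), abs_mul]
      have a1 := (hc i).le
      have a2 := (hc o).le
      have a3 : |(T * x i - c i) - (T * x o - c o)| ≤ 2 * η := by
        refine (abs_sub _ _).trans ?_
        linarith
      rw [div_le_iff₀ (by positivity)]
      calc |t| * |(T * x i - c i) - (T * x o - c o)| ≤ 2 * (2 * η) := by gcongr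
        _ = 4 * η * 1 := by ring
        _ ≤ 4 * η * G := by gcongr
    have e3 := abs_sub_abs_le_abs_sub (t * ((w i : ℝ) - w o) - m)
      (-(t * ((T * x i - c i) - (T * x o - c o)) / G))
    rw [abs_neg] at e3
    rw [e1]
    linarith
  · exfalso
    push Not at hlarge
    have hmemZ : (fun i => ((G : ℝ) / T) * w i) ∈ Z := by
      rw [hZ]
      simp only [Set.mem_iUnion]
      refine ⟨fun i => (w i).toNat, ?_, ?_⟩
      · rw [Fintype.mem_piFinset]
        intro i
        rw [Finset.mem_range]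
        have h1 := hlarge i
        have h2 := hwpos i
        zify
        rw [Int.toNat_of_nonneg h2]
        omega
      · rw [SetLike.mem_coe, Submodule.mem_span_singleton]
        refine ⟨(G : ℝ) / T, ?_⟩
        funext i
        have h2 := hwpos i
        have h3 : (((w i).toNat : ℕ) : ℝ) = (w i : ℝ) := by
          have : (((w i).toNat : ℕ) : ℤ) = w i := Int.toNat_of_nonneg h2
          exact_mod_cast this
        simp only [Pi.smul_apply, smul_eq_mul, h3]
    have hdist : (fun i => ((G : ℝ) / T) * w i) ∈ Metric.ball x ρ := by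
      rw [Metric.mem_ball, dist_comm, dist_pi_lt_iff hρ]
      intro i
      rw [Real.dist_eq]
      have hT0 : (0 : ℝ) < T := by linarith
      have e : x i - (G : ℝ) / T * w i = (T * x i - c i) / T := by
        rw [hcwR i]
        field_simp
      rw [e, abs_div, abs_of_pos hT0, div_lt_iff₀ hT0]
      have := hc i
      nlinarith
    exact hball hdist hmemZ

end Pool.Agent.WLR4
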